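import Pool.Agent.K1H68.CP.Seq

/-!
# Block Hankel matrices of small rank: the extension of all entries at once
-/

set_option autoImplicit false
set_option linter.unusedSectionVars false

namespace Pool.Agent.K1H68.CP

open Finset Pool.Agent.H630R2.LR Pool.Agent.H431R2.Hankel

/-- the indicator of a Boolean -/
def ind (b : Bool) : ℝ := if b then (1 : ℝ) else 0

theorem cm {X Y : Type} (F : X → Y → Bool) (x : X) (y : Y) :
    Pool.Agent.H630R2.LR.comm F x y = ind (F x y) := rfl

section

variable {P Q : Type} [Fintype P] [Fintype Q]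

/-- the block Hankel matrix -/
def bl (m n : ℕ) (σ : P → Q → ℕ → Bool) (x : Fin m × P) (y : Fin n × Q) : Bool :=
  σ x.2 y.2 (x.1 + y.1)

/-- the extended matrix -/
noncomputable def blZ (m n r : ℕ) (σ : P → Q → ℕ → Bool) (x : ZMod (per r) × P)
    (y : ZMod (per r) × Q) : Bool :=
  extZ m n r (σ x.2 y.2) (x.1 + y.1)

theorem rank_entry (m n : ℕ) (σ : P → Q → ℕ → Bool) (p : P) (q : Q) :
    (comm (fun (i : Fin m) (j : Fin n) => σ p q (i + j))).rank ≤ (comm (bl m n σ)).rank := by
  classical
  have : comm (fun (i : Fin m) (j : Fin n) => σ p q (i + j)) =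
      (comm (bl m n σ)).submatrix (fun i => (i, p)) (fun j => (j, q)) := by
    ext i j; rfl
  rw [this]
  exact Matrix.rank_submatrix_le _ _ _

/-- the recurrence of one block row -/
theorem row_relation (m n r : ℕ) (σ : P → Q → ℕ → Bool) (hm : (r + 1) ^ 2 < m)
    (hn : (r + 1) ^ 2 < n) (hr : (comm (bl m n σ)).rank ≤ r) (p : P) :
    ∃ w : ℕ → ℝ, (∃ l ≤ r, w l ≠ 0) ∧ ∀ (q : Q) (u : ZMod (per r)),
      ∑ l ∈ range (r + 1), w l * ind (extZ m n r (σ p q) (u + l)) = 0 := by
  classical
  have hsq : (r + 1) ^ 2 = r ^ 2 + 2 * r + 1 := by ring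
  have h3r : 3 * r < m := by nlinarith [sq_nonneg ((r : ℤ) - 1), Nat.zero_le r, sq_nonneg r]
  have hnr : r ≤ n := by nlinarith
  set M := comm (bl m n σ) with hM
  let row : Fin (r + 1) → (Fin n × Q → ℝ) := fun l => M (⟨r + l, by omega⟩, p)
  have hnot : ¬ LinearIndependent ℝ row := by
    intro hli
    have h1 := finrank_span_eq_card hli
    have h2 : Submodule.span ℝ (Set.range row) ≤ Submodule.span ℝ (Set.range M.row) := by
      apply Submodule.span_mono
      rintro _ ⟨l, rfl⟩
      exact ⟨(⟨r + l, by omega⟩, p), rfl⟩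
    have h3 := Submodule.finrank_mono h2
    rw [← Matrix.rank_eq_finrank_span_row, h1, Fintype.card_fin] at h3
    omega
  rw [Fintype.not_linearIndependent_iff] at hnot
  obtain ⟨g, hg, l0, hl0⟩ := hnot
  refine ⟨fun l => if h : l < r + 1 then g ⟨l, h⟩ else 0,
    ⟨l0, by omega, by simp only [Fin.is_lt, dite_true, Fin.eta]; exact hl0⟩, fun q u => ?_⟩
  set w : ℕ → ℝ := fun l => if h : l < r + 1 then g ⟨l, h⟩ else 0 with hw
  have hspec := ext_spec (σ p q) m n r hm hn ((rank_entry m n σ p q).trans hr)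
  set e := ext m n r (σ p q) with he
  have hrec : Rec (fun t => ind (e t)) r := hspec.2.2
  have hlin := rec_lincomb hrec (r + 1) w
  have hsh := Pool.Agent.H431R2.Hankel.Rec.shift_pow hlin r
  have hz := Pool.Agent.H431R2.Hankel.Rec.key hsh (fun j hj => by
    have := congrFun hg (⟨j, by omega⟩, q)
    rw [Finset.sum_apply, Pi.zero_apply] at this
    rw [← Fin.sum_univ_eq_sum_range (fun l => w l * ind (e (r + j + l)))]
    refine Eq.trans ?_ this
    refine Finset.sum_congr rfl fun l _ => ?_
    have h1 : e (r + j + l) = σ p q (r + j + l) := by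
      rw [he]
      exact hspec.1 _ (by omega)
    rw [h1]
    simp only [hw, Fin.is_lt, dite_true, Fin.eta, Pi.smul_apply, smul_eq_mul, row, hM, cm, bl]
    rw [show r + j + (l : ℕ) = r + l + j by ring])
  have h2 := hz (u.val + (per r * r - r) )
  have hle : r ≤ per r * r := Nat.le_mul_of_pos_left r (per_pos r)
  refine Eq.trans ?_ h2
  refine Finset.sum_congr rfl fun l _ => ?_
  have h3 : r + (u.val + (per r * r - r)) + l = u.val + per r * r + l := by omega
  rw [h3]
  have h4 : e (u.val + per r * r + l) = extZ m n r (σ p q) (u + l) := by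
    rw [he, ext_eq_extZ hspec _ (by omega)]
    congr 1
    push_cast
    rw [ZMod.natCast_zmod_val, ZMod.natCast_self, zero_mul, add_zero]
  rw [← h4, ← h3]

/-- every row of the extended matrix is in the span of `r` consecutive rows of the same block -/
theorem row_span (m n r : ℕ) (σ : P → Q → ℕ → Bool) (hm : (r + 1) ^ 2 < m)
    (hn : (r + 1) ^ 2 < n) (hr : (comm (bl m n σ)).rank ≤ r) (p : P) (s : ℕ) (u : ZMod (per r)) :
    comm (blZ m n r σ) (u, p) ∈ Submodule.span ℝ
      (Set.range fun i : Fin r => comm (blZ m n r σ) ((((s + i : ℕ) : ZMod (per r))), p)) := by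
  classical
  obtain ⟨w, ⟨l1, hl1, hw1⟩, hrel⟩ := row_relation m n r σ hm hn hr p
  let Pr : ℕ → Prop := fun l => w l ≠ 0
  let l0 := Nat.findGreatest Pr r
  have hl0 : w l0 ≠ 0 := Nat.findGreatest_spec (P := Pr) hl1 hw1
  have hl0r : l0 ≤ r := Nat.findGreatest_le r
  have hbig : ∀ l, l0 < l → l ≤ r → w l = 0 := by
    intro l h1 h2
    by_contra hne
    exact Nat.findGreatest_is_greatest (P := Pr) h1 h2 hne
  set R : ZMod (per r) → (ZMod (per r) × Q → ℝ) := fun x => comm (blZ m n r σ) (x, p) with hR
  set W := Submodule.span ℝ (Set.range fun i : Fin r => R (((s + i : ℕ) : ZMod (per r)))) with hW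
  have hstep : ∀ x : ZMod (per r), R (x + l0) = ∑ l ∈ range l0, (-(w l / w l0)) • R (x + l) := by
    intro x
    funext ⟨v, q⟩
    have h1 := hrel q (x + v)
    have h5 : ∑ l ∈ range (r + 1), w l * ind (extZ m n r (σ p q) (x + v + l))
        = ∑ l ∈ range (l0 + 1), w l * ind (extZ m n r (σ p q) (x + v + l)) := by
      symm
      apply Finset.sum_subset
      · intro l hl; simp only [Finset.mem_range] at hl ⊢; omega
      · intro l hl hl'
        simp only [Finset.mem_range] at hl hl'
        rw [hbig l (by omega) (by omega), zero_mul]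
    rw [h5, Finset.sum_range_succ] at h1
    have hRv : ∀ l : ℕ, R (x + l) (v, q) = ind (extZ m n r (σ p q) (x + v + l)) := by
      intro l
      simp only [hR, cm, blZ]
      rw [show x + (l : ZMod (per r)) + v = x + v + l by ring]
    rw [hRv, Finset.sum_apply]
    have h6 : ∑ l ∈ range l0, ((-(w l / w l0)) • R (x + l)) (v, q) =
        -(1 / w l0) * ∑ l ∈ range l0, w l *
          ind (extZ m n r (σ p q) (x + v + l)) := by
      rw [Finset.mul_sum]
      refine Finset.sum_congr rfl fun l _ => ?_
      rw [Pi.smul_apply, hRv, smul_eq_mul]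
      ring
    rw [h6]
    have h7 : ∑ l ∈ range l0, w l * ind (extZ m n r (σ p q) (x + v + l)) =
        -(w l0 * ind (extZ m n r (σ p q) (x + v + l0))) := by linarith
    rw [h7]
    field_simp
  have key : ∀ k : ℕ, R (((s + k : ℕ) : ZMod (per r))) ∈ W := by
    intro k
    induction k using Nat.strong_induction_on with
    | _ k ih =>
      by_cases hk : k < r
      · exact Submodule.subset_span ⟨⟨k, hk⟩, rfl⟩
      · obtain ⟨j, rfl⟩ : ∃ j, k = j + l0 := ⟨k - l0, by omega⟩
        have e1 : ((s + (j + l0) : ℕ) : ZMod (per r)) = ((s + j : ℕ) : ZMod (per r)) + l0 := by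
          push_cast; ring
        rw [e1, hstep]
        refine Submodule.sum_mem _ fun l hl => Submodule.smul_mem _ _ ?_
        have hl2 := Finset.mem_range.1 hl
        have e2 : ((s + j : ℕ) : ZMod (per r)) + l = ((s + (j + l) : ℕ) : ZMod (per r)) := by
          push_cast; ring
        rw [e2]
        exact ih (j + l) (by omega)
  have e3 : u = ((s + (u - s).val : ℕ) : ZMod (per r)) := by
    push_cast
    rw [ZMod.natCast_zmod_val]
    ring
  have h8 := key ((u - s).val)
  rw [← e3] at h8
  exact h8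

theorem comm_rank_transpose {X Y : Type} [Fintype X] [Fintype Y] (F : X → Y → Bool) :
    (comm (fun (y : Y) (x : X) => F x y)).rank = (comm F).rank := by
  classical
  rw [← Matrix.rank_transpose]
  rfl

theorem extZ_comm (m n r : ℕ) (s : ℕ → Bool) : ext m n r s = ext n m r s := by
  have h : IsExt m n r s = IsExt n m r s := by
    funext e
    unfold IsExt
    rw [add_comm m n]
  unfold ext
  by_cases h1 : ∃ e, IsExt m n r s e
  · have h2 : ∃ e, IsExt n m r s e := by rw [← h]; exact h1
    rw [dif_pos h1, dif_pos h2]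
    congr 1
  · have h2 : ¬ ∃ e, IsExt n m r s e := by rw [← h]; exact h1
    rw [dif_neg h1, dif_neg h2]

/-- **Block Hankel matrices**: the simultaneous extension does not increase the rank. -/
theorem block_rank (m n r : ℕ) (σ : P → Q → ℕ → Bool) (hm : (r + 1) ^ 2 < m)
    (hn : (r + 1) ^ 2 < n) (hr : (comm (bl m n σ)).rank ≤ r) :
    (comm (blZ m n r σ)).rank ≤ r := by
  classical
  have hsq : (r + 1) ^ 2 = r ^ 2 + 2 * r + 1 := by ring
  have h3r : 3 * r < m := by nlinarith [sq_nonneg ((r : ℤ) - 1), Nat.zero_le r, sq_nonneg r]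
  have hnr : r ≤ n := by nlinarith
  set M := comm (blZ m n r σ) with hM
  -- rows
  let ρ : Fin r × P → ZMod (per r) × P := fun x => (((r + x.1 : ℕ) : ZMod (per r)), x.2)
  have h1 : M.rank ≤ (M.submatrix ρ id).rank := by
    rw [Matrix.rank_eq_finrank_span_row, Matrix.rank_eq_finrank_span_row]
    apply Submodule.finrank_mono
    rw [Submodule.span_le]
    rintro _ ⟨⟨u, p⟩, rfl⟩
    have h2 := row_span m n r σ hm hn hr p r u
    refine Submodule.span_mono ?_ h2
    rintro _ ⟨i, rfl⟩
    exact ⟨(i, p), rfl⟩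
  -- columns
  have hrT : (comm (bl n m (fun (q : Q) (p : P) => σ p q))).rank ≤ r := by
    refine le_trans (le_of_eq ?_) hr
    rw [← comm_rank_transpose (bl m n σ)]
    congr 2
    funext y x
    simp only [bl]
    rw [add_comm]
  let κ : Fin r × Q → ZMod (per r) × Q := fun y => (((y.1 : ℕ) : ZMod (per r)), y.2)
  have h3 : (M.submatrix ρ id).rank ≤ ((M.submatrix ρ id).submatrix id κ).rank := by
    rw [Matrix.rank_eq_finrank_span_cols, Matrix.rank_eq_finrank_span_cols]
    apply Submodule.finrank_mono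
    rw [Submodule.span_le]
    rintro _ ⟨⟨v, q⟩, rfl⟩
    have h2 := row_span n m r (fun (q : Q) (p : P) => σ p q) hn hm hrT q 0 v
    -- restrict the vectors to the rows of `ρ`
    let res : ((ZMod (per r) × P) → ℝ) →ₗ[ℝ] (Fin r × P → ℝ) :=
      LinearMap.funLeft ℝ ℝ ρ
    have h4 := Submodule.mem_map_of_mem (f := res) h2
    rw [Submodule.map_span] at h4
    have e0 : ∀ (v : ZMod (per r)) (q : Q), res (comm (blZ n m r fun (q : Q) (p : P) => σ p q) (v, q)) =
        (M.submatrix ρ id).col (v, q) := by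
      intro v q
      funext x
      simp only [res, LinearMap.funLeft_apply, cm, blZ, hM, Matrix.col_apply,
        Matrix.submatrix_apply, id]
      have : extZ n m r (σ x.2 q) (v + (ρ x).1) = extZ m n r (σ x.2 q) ((ρ x).1 + v) := by
        unfold extZ
        rw [extZ_comm, add_comm v]
      simp only [ρ] at this ⊢
      rw [this]
    rw [e0] at h4
    refine Submodule.span_mono ?_ h4
    rintro _ ⟨_, ⟨i, rfl⟩, rfl⟩
    refine ⟨(i, q), ?_⟩
    simp only [Nat.zero_add]
    rw [e0]
    rfl
  -- the window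
  have h5 : (M.submatrix ρ id).submatrix id κ =
      (comm (bl m n σ)).submatrix (fun x : Fin r × P => ((⟨r + x.1, by omega⟩ : Fin m), x.2))
        (fun y : Fin r × Q => ((⟨y.1, by omega⟩ : Fin n), y.2)) := by
    ext x y
    obtain ⟨i, p⟩ := x
    obtain ⟨j, q⟩ := y
    simp only [Matrix.submatrix_apply, id, hM, cm, blZ, bl, ρ, κ]
    have hspec := ext_spec (σ p q) m n r hm hn ((rank_entry m n σ p q).trans hr)
    have h6 : extZ m n r (σ p q) (((r + i : ℕ) : ZMod (per r)) + ((j : ℕ) : ZMod (per r))) =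
        σ p q (r + i + j) := by
      rw [← hspec.1 (r + i + j) (by omega), ext_eq_extZ hspec _ (by omega)]
      congr 1
      push_cast
      rfl
    rw [h6]
  rw [h5] at h3
  exact h1.trans (h3.trans ((Matrix.rank_submatrix_le _ _ _).trans hr))

end

end Pool.Agent.K1H68.CP
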