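import Pool.Agent.K1H68.CP.Crt
import Pool.Agent.H630R2.LR.Core
import Pool.Agent.H630R2.LR.Hankel

/-!
# Convolution matrices of families of functions

`F x (q, y) = g q (x + y)` for `x, y` in a finite abelian group and `q` in an arbitrary finite set.
The protocol does not depend on the number of the `q`.
-/

set_option autoImplicit false

namespace Pool.Agent.K1H68.CP

open Finset Pool.Agent.H630R2.LR

/-- the union of the spectra -/
noncomputable def fspec {G Q : Type} [AddCommGroup G] [Fintype G] [Fintype Q] (g : Q → G → Bool) :
    Finset (AddChar G ℂ) := by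
  classical exact Finset.univ.biUnion fun q => spec (g q)

theorem mem_fspec {G Q : Type} [AddCommGroup G] [Fintype G] [Fintype Q] {g : Q → G → Bool}
    {χ : AddChar G ℂ} : χ ∈ fspec g ↔ ∃ q, χ ∈ spec (g q) := by
  classical
  unfold fspec
  simp

/-- The complexification of a real matrix does not have larger rank. -/
theorem rank_map_le' {X Y : Type} [Fintype X] [Fintype Y] (M : Matrix X Y ℝ) :
    (M.map (fun r : ℝ => (r : ℂ))).rank ≤ M.rank := by
  classical
  rw [Matrix.rank_eq_finrank_span_cols M, Matrix.rank_eq_finrank_span_cols (M.map _)]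
  set V := Submodule.span ℝ (Set.range M.col) with hV
  set b := Module.finBasis ℝ V with hb
  let w : Fin (Module.finrank ℝ V) → X → ℂ := fun i x => (((b i : V) : X → ℝ) x : ℂ)
  have h1 : Submodule.span ℂ (Set.range (M.map (fun r : ℝ => (r : ℂ))).col) ≤
      Submodule.span ℂ (Set.range w) := by
    rw [Submodule.span_le]
    rintro _ ⟨j, rfl⟩
    have hj : M.col j ∈ V := Submodule.subset_span ⟨j, rfl⟩
    have h2 := b.sum_repr ⟨M.col j, hj⟩
    have h3 : (M.map (fun r : ℝ => (r : ℂ))).col j =
        ∑ i, ((b.repr ⟨M.col j, hj⟩ i : ℝ) : ℂ) • w i := by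
      funext x
      have h4 := congrArg (fun v : V => ((v : X → ℝ) x)) h2
      simp only [Submodule.coe_sum, Submodule.coe_smul, Finset.sum_apply, Pi.smul_apply,
        smul_eq_mul] at h4
      simp only [Matrix.col_apply, Matrix.map_apply, Finset.sum_apply, Pi.smul_apply, smul_eq_mul, w]
      rw [Matrix.col_apply] at h4
      rw [← h4]
      push_cast
      rfl
    rw [SetLike.mem_coe, h3]
    exact Submodule.sum_mem _ fun i _ => Submodule.smul_mem _ _ (Submodule.subset_span ⟨i, rfl⟩)
  calc _ ≤ Module.finrank ℂ (Submodule.span ℂ (Set.range w)) := Submodule.finrank_mono h1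
    _ ≤ Fintype.card (Fin (Module.finrank ℝ V)) := finrank_range_le_card w
    _ = _ := Fintype.card_fin _

theorem card_fspec_le {G Q : Type} [AddCommGroup G] [Fintype G] [Fintype Q] (g : Q → G → Bool) :
    (fspec g).card ≤ (comm (fun (x : G) (y : Q × G) => g y.1 (x + y.2))).rank := by
  classical
  set M := comm (fun (x : G) (y : Q × G) => g y.1 (x + y.2)) with hM
  refine le_trans ?_ (rank_map_le' M)
  set MC := M.map (fun r : ℝ => (r : ℂ)) with hMC
  have key : ∀ (q : Q) (χ : AddChar G ℂ),
      MC.mulVecLin (fun y : Q × G => if y.1 = q then χ y.2 else 0) =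
        fc (g q) χ • (fun x => (χ⁻¹ : AddChar G ℂ) x) := by
    intro q χ
    funext x
    simp only [Matrix.mulVecLin_apply, Matrix.mulVec, dotProduct, Pi.smul_apply, smul_eq_mul, fc]
    rw [Fintype.sum_prod_type, Finset.sum_eq_single q]
    · rw [Finset.sum_mul]
      apply Fintype.sum_equiv (Equiv.addLeft x)
      intro y
      have h1 : MC x (q, y) = if g q (x + y) then 1 else 0 := by
        simp only [hMC, Matrix.map_apply, hM, Pool.Agent.H630R2.LR.comm, Matrix.of_apply]
        split_ifs <;> simp
      rw [h1, Equiv.coe_addLeft, AddChar.inv_apply, mul_assoc, if_pos rfl]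
      congr 1
      rw [← AddChar.map_add_eq_mul]
      exact congrArg _ (by show y = x + y + -x; rw [add_comm x y, add_neg_cancel_right])
    · intro q' _ hq'
      refine Finset.sum_eq_zero fun y _ => ?_
      rw [if_neg hq', mul_zero]
    · intro h
      exact absurd (Finset.mem_univ q) h
  let v : fspec g → G → ℂ := fun χ => ((χ : AddChar G ℂ)⁻¹ : AddChar G ℂ)
  have hli : LinearIndependent ℂ v := by
    have h := AddChar.linearIndependent G ℂ
    exact h.comp (fun χ : fspec g => ((χ : AddChar G ℂ)⁻¹)) (fun a b hab => Subtype.ext (inv_injective hab))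
  have hmem : ∀ χ : fspec g, v χ ∈ LinearMap.range MC.mulVecLin := by
    intro χ
    obtain ⟨q, hq⟩ := mem_fspec.1 χ.2
    have hne : fc (g q) (χ : AddChar G ℂ) ≠ 0 := (Finset.mem_filter.1 hq).2
    refine ⟨(fc (g q) (χ : AddChar G ℂ))⁻¹ •
      (fun y : Q × G => if y.1 = q then (χ : AddChar G ℂ) y.2 else 0), ?_⟩
    rw [map_smul, key, smul_smul, inv_mul_cancel₀ hne, one_smul]
  have hspan : Submodule.span ℂ (Set.range v) ≤ LinearMap.range MC.mulVecLin := by
    rw [Submodule.span_le]
    rintro _ ⟨χ, rfl⟩
    exact hmem χ
  calc (fspec g).card = Fintype.card (fspec g) := by simp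
    _ = Module.finrank ℂ (Submodule.span ℂ (Set.range v)) := (finrank_span_eq_card hli).symm
    _ ≤ Module.finrank ℂ (LinearMap.range MC.mulVecLin) := Submodule.finrank_mono hspan
    _ = MC.rank := rfl

/-- Bob knows a tree; Alice knows a point. -/
theorem tree_proto {I : Type} [Fintype I] [DecidableEq I] {Ω : I → Type} [∀ i, Fintype (Ω i)]
    (w v : ℕ) (hw : ∀ i, Fintype.card (Ω i) ≤ 2 ^ w) (hv : Fintype.card (Option I) ≤ 2 ^ v)
    {X Y : Type} (α : X → ∀ i, Ω i) : ∀ (n : ℕ) (h : Y → (∀ i, Ω i) → Bool)
      (_ : ∀ y, DT (h y) n), Proto (fun x y => h y (α x)) ((w + v) * n + 1) := by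
  classical
  intro n
  induction n with
  | zero =>
    intro h hh
    have hc : ∀ y, ∃ b : Bool, ∀ z, h y z = b := by
      intro y
      have := hh y
      generalize h y = f at this
      generalize hm : (0 : ℕ) = m at this
      cases this with
      | const b _ => exact ⟨b, fun z => rfl⟩
      | query g n i h => omega
    choose b hb using hc
    have e : (fun (x : X) (y : Y) => h y (α x)) = fun _ y => b y := by
      funext x y; exact hb y _
    rw [e]
    exact (proto_bobKnows b).mono (by omega)
  | succ n ih =>
    intro h hh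
    -- the index Bob wants to know, and what he continues with
    have hc : ∀ y, ∃ o : Option I, match o with
        | none => ∃ b : Bool, ∀ z, h y z = b
        | some i => ∀ a : Ω i, DT (fun x => h y (Function.update x i a)) n := by
      intro y
      have := hh y
      generalize hf : h y = f at this
      generalize hm : n + 1 = m at this
      cases this with
      | const b _ => exact ⟨none, b, fun z => rfl⟩
      | query g n' i hq =>
        have : n' = n := by omega
        subst this
        exact ⟨some i, hq⟩
    choose o ho using hc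
    have e : (w + v) * (n + 1) + 1 = (((w + v) * n + 1) + w) + v := by ring
    rw [e]
    refine Proto.sendY _ o v hv (fun o' x y => match o' with
      | none => (if o y = none then h y (α x) else false)
      | some i => (if o y = some i then h y (Function.update (α x) i (α x i)) else false)) _
      (fun o' => ?_) (fun x y => ?_)
    · cases o' with
      | none =>
        have hb : ∀ y, ∃ b : Bool, o y = none → ∀ z, h y z = b := by
          intro y
          by_cases hy : o y = none
          · have := ho y
            rw [hy] at this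
            obtain ⟨b, hb⟩ := this
            exact ⟨b, fun _ => hb⟩
          · exact ⟨false, fun h => absurd h hy⟩
        choose b hb using hb
        refine Proto.mono (c := 1) ?_ (by omega)
        have e2 : (fun (x : X) (y : Y) => if o y = none then h y (α x) else false) =
            fun _ y => if o y = none then b y else false := by
          funext x y
          by_cases hy : o y = none
          · simp only [hy, if_true, hb y hy]
          · simp only [hy, if_false]
        show Proto (fun (x : X) (y : Y) => if o y = none then h y (α x) else false) 1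
        rw [e2]
        exact proto_bobKnows _
      | some i =>
        refine Proto.sendX _ (fun x => α x i) w (hw i)
          (fun a x y => (if o y = some i then h y (Function.update (α x) i a) else false)) _
          (fun a => ?_) (fun x y => rfl)
        refine ih (fun y z => if o y = some i then h y (Function.update z i a) else false)
          (fun y => ?_)
        by_cases hy : o y = some i
        · have h1 := ho y
          rw [hy] at h1
          have h2 := h1 a
          simp only [hy, if_true]
          exact h2
        · simp only [hy, if_false]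
          exact DT.const false n
    · cases hy : o y with
      | none => simp
      | some i => simp

/-- the cost of the one-sided protocol -/
def fcost (d s : ℕ) : ℕ :=
  (d * Nat.clog 2 (2 * s) + Nat.clog 2 (2 * s + 1)) * ∑ j ∈ range (Nat.log 2 s + 2), j ^ 3 + 1

theorem spec_shift {G : Type} [AddCommGroup G] [Fintype G] (f : G → Bool) (b : G) :
    spec (fun x => f (x + b)) ⊆ spec f := by
  classical
  intro χ hχ
  have h1 : fc (fun x => f (x + b)) χ ≠ 0 := (Finset.mem_filter.1 hχ).2
  refine Finset.mem_filter.2 ⟨Finset.mem_univ _, fun h0 => h1 ?_⟩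
  have h2 : fc f χ = ∑ x, (if f (x + b) then (1 : ℂ) else 0) * χ (x + b) := by
    unfold fc
    exact (Fintype.sum_equiv (Equiv.addRight b) _ _ (fun x => rfl)).symm
  have h3 : fc f χ = fc (fun x => f (x + b)) χ * χ b := by
    rw [h2]
    unfold fc
    rw [Finset.sum_mul]
    refine Finset.sum_congr rfl fun x _ => ?_
    rw [AddChar.map_add_eq_mul, mul_assoc]
  rw [h3] at h0
  rcases mul_eq_zero.1 h0 with h | h
  · exact h
  · exfalso
    have := AddChar.map_add_eq_mul χ b (-b)
    rw [h, zero_mul, add_neg_cancel, AddChar.map_zero_eq_one] at this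
    exact one_ne_zero this

/-- **Families of functions on a finite abelian group.** -/
theorem core1 {G Q : Type} [AddCommGroup G] [Fintype G] [Fintype Q] (g : Q → G → Bool) (d : ℕ)
    (gens : Fin d → G) (hgens : ∀ x : G, ∃ a : Fin d → ℤ, x = ∑ i, a i • gens i) (s : ℕ)
    (hs : (comm (fun (x : G) (y : Q × G) => g y.1 (x + y.2))).rank ≤ s) :
    Proto (fun (x : G) (y : Q × G) => g y.1 (x + y.2)) (fcost d s) := by
  classical
  have hS : (fspec g).card ≤ s := (card_fspec_le g).trans hs
  have hpos : ∀ χ : AddChar G ℂ, 0 < orderOf χ := fun χ => orderOf_pos χ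
  have htot : ∀ χ ∈ fspec g, (orderOf χ).totient ≤ s := fun χ hχ => by
    obtain ⟨q, hq⟩ := mem_fspec.1 hχ
    refine (totient_le (g q) χ (Finset.mem_filter.1 hq).2).trans
      (le_trans (Finset.card_le_card fun ψ hψ => mem_fspec.2 ⟨q, hψ⟩) hS)
  obtain ⟨I, _, _, Ω, _, _, q, hcI, hcard, hfam⟩ := crt_family (fspec g) d gens hgens (2 * s)
    (Nat.log 2 s + 1)
    (fun χ hχ => card_primeFactors_le _ _ (hpos χ) (htot χ hχ))
    (fun χ hχ p hp => primePow_le _ _ _ (hpos χ) (htot χ hχ) hp)
  have hsub : ∀ y : Q × G, spec (fun x => g y.1 (x + y.2)) ⊆ fspec g := fun y =>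
    (spec_shift (g y.1) y.2).trans fun ψ hψ => mem_fspec.2 ⟨y.1, hψ⟩
  choose h hvan hval using fun y : Q × G => hfam (fun x => g y.1 (x + y.2)) (hsub y)
  have hw : ∀ i, Fintype.card (Ω i) ≤ 2 ^ (d * Nat.clog 2 (2 * s)) := fun i => by
    refine (hcard i).trans ?_
    rw [mul_comm d, pow_mul]
    exact Nat.pow_le_pow_left (Nat.le_pow_clog (by norm_num) _) _
  have hv : Fintype.card (Option I) ≤ 2 ^ Nat.clog 2 (2 * s + 1) := by
    rw [Fintype.card_option]
    exact (Nat.add_le_add_right hcI 1).trans (Nat.le_pow_clog (by norm_num) _)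
  have key := tree_proto (d * Nat.clog 2 (2 * s)) (Nat.clog 2 (2 * s + 1)) hw hv
    (fun (x : G) i => q i x) _ h (fun y => dt_of_vanish (h y) _ (hvan y))
  have e : (fun (x : G) (y : Q × G) => g y.1 (x + y.2)) = fun x y => h y (fun i => q i x) := by
    funext x y
    exact hval y x
  rw [e]
  exact key

end Pool.Agent.K1H68.CP
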