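import Pool.Agent.K1H68.CP.Reduce
import Pool.Agent.H630R2.LR.Bounds
import Pool.Agent.H287R3.LR.Graph

/-!
# Final forms
-/

set_option autoImplicit false
set_option linter.unusedSectionVars false

namespace Pool.Agent.K1H68.CP

open Finset Pool.Agent.H630R2.LR

theorem fcost_le (d r : ℕ) : (fcost d r : ℝ) ≤ (2 * d + 3) * (Real.logb 2 r + 1) ^ 5 + 1 := by
  have hl := logb_nonneg r
  rcases Nat.eq_zero_or_pos r with rfl | hr
  · simp [fcost]
    positivity
  have h1 : (Nat.clog 2 (2 * r) : ℝ) ≤ 2 * (Real.logb 2 r + 1) := by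
    have h2 := clog_le (2 * r)
    have h3 : Real.logb 2 ((2 * r : ℕ) : ℝ) = 1 + Real.logb 2 r := by
      push_cast
      rw [Real.logb_mul (by norm_num) (by positivity), Real.logb_self_eq_one (by norm_num)]
    rw [h3] at h2
    linarith
  have h1' : (Nat.clog 2 (2 * r + 1) : ℝ) ≤ 3 * (Real.logb 2 r + 1) := by
    have h0 : Nat.clog 2 (2 * r + 1) ≤ Nat.clog 2 (4 * r) := Nat.clog_mono_right 2 (by omega)
    have h2 := clog_le (4 * r)
    have h3 : Real.logb 2 ((4 * r : ℕ) : ℝ) = 2 + Real.logb 2 r := by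
      push_cast
      rw [Real.logb_mul (by norm_num) (by positivity),
        show (4 : ℝ) = 2 ^ (2 : ℕ) by norm_num, Real.logb_pow, Real.logb_self_eq_one (by norm_num)]
      norm_num
    rw [h3] at h2
    have h0' : (Nat.clog 2 (2 * r + 1) : ℝ) ≤ (Nat.clog 2 (4 * r) : ℝ) := by exact_mod_cast h0
    linarith
  have h4 : ((∑ j ∈ range (Nat.log 2 r + 2), j ^ 3 : ℕ) : ℝ) ≤ (Real.logb 2 r + 1) ^ 4 := by
    have h5 : (∑ j ∈ range (Nat.log 2 r + 2), j ^ 3 : ℕ) ≤ (Nat.log 2 r + 1) ^ 4 := by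
      rw [show Nat.log 2 r + 2 = (Nat.log 2 r + 1) + 1 by ring, Finset.sum_range_succ']
      simp only [ne_eq, OfNat.ofNat_ne_zero, not_false_eq_true, zero_pow, add_zero]
      calc ∑ k ∈ range (Nat.log 2 r + 1), (k + 1) ^ 3
          ≤ ∑ k ∈ range (Nat.log 2 r + 1), (Nat.log 2 r + 1) ^ 3 := by
            refine Finset.sum_le_sum fun k hk => ?_
            have := Finset.mem_range.1 hk
            exact Nat.pow_le_pow_left (by omega) 3
        _ = (Nat.log 2 r + 1) ^ 4 := by
            rw [Finset.sum_const, Finset.card_range, smul_eq_mul]; ring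
    have h6 : ((∑ j ∈ range (Nat.log 2 r + 2), j ^ 3 : ℕ) : ℝ) ≤ ((Nat.log 2 r : ℝ) + 1) ^ 4 := by
      exact_mod_cast h5
    refine h6.trans ?_
    have := log_le r
    gcongr
  unfold fcost
  push_cast at h4 ⊢
  have h7 : ((d : ℝ) * (Nat.clog 2 (2 * r) : ℝ) + (Nat.clog 2 (2 * r + 1) : ℝ)) ≤
      (2 * d + 3) * (Real.logb 2 r + 1) := by
    have : (d : ℝ) * (Nat.clog 2 (2 * r) : ℝ) ≤ d * (2 * (Real.logb 2 r + 1)) := by gcongr
    linarith
  have h8 : ((d : ℝ) * (Nat.clog 2 (2 * r) : ℝ) + (Nat.clog 2 (2 * r + 1) : ℝ)) *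
      (∑ j ∈ range (Nat.log 2 r + 2), (j : ℝ) ^ 3) ≤
      ((2 * d + 3) * (Real.logb 2 r + 1)) * (Real.logb 2 r + 1) ^ 4 := by
    gcongr
  nlinarith [h8]

theorem clog_sq_le (r : ℕ) : (Nat.clog 2 ((r + 1) ^ 2) : ℝ) ≤ 3 * (Real.logb 2 r + 1) := by
  have hl := logb_nonneg r
  refine (clog_le _).trans ?_
  have h3 : Real.logb 2 (((r + 1) ^ 2 : ℕ) : ℝ) = 2 * Real.logb 2 ((r : ℝ) + 1) := by
    push_cast
    rw [Real.logb_pow]
    norm_num
  rw [h3]
  have h4 : Real.logb 2 ((r : ℝ) + 1) ≤ Real.logb 2 r + 1 := by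
    rcases Nat.eq_zero_or_pos r with h0 | h0
    · rw [h0]; simp
    · have h5 : Real.logb 2 r + 1 = Real.logb 2 (r * 2) := by
        rw [Real.logb_mul (by positivity) (by norm_num), Real.logb_self_eq_one (by norm_num)]
      rw [h5]
      refine Real.logb_le_logb_of_le (by norm_num) (by positivity) ?_
      have : (1 : ℝ) ≤ r := by exact_mod_cast h0
      linarith
  linarith

/-- the cost for one patch -/
noncomputable def pcost (d e r : ℕ) : ℕ := fcost (e + d) r + 2 * Nat.clog 2 ((r + 1) ^ 2) * d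

theorem pcost_le (d e r : ℕ) :
    (pcost d e r : ℝ) ≤ (8 * (d + e) + 4) * (Real.logb 2 r + 1) ^ 5 := by
  have hl := logb_nonneg r
  have h1 := fcost_le (e + d) r
  have h2 := clog_sq_le r
  have h5 : (Real.logb 2 r + 1) ≤ (Real.logb 2 r + 1) ^ 5 := by
    have : (1 : ℝ) ≤ Real.logb 2 r + 1 := by linarith
    calc (Real.logb 2 r + 1) = (Real.logb 2 r + 1) ^ 1 := (pow_one _).symm
      _ ≤ _ := pow_le_pow_right₀ this (by norm_num)
  have h6 : (1 : ℝ) ≤ (Real.logb 2 r + 1) ^ 5 := by linarith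
  unfold pcost
  push_cast at h1 h2 ⊢
  have h7 : 2 * (Nat.clog 2 ((r + 1) ^ 2) : ℝ) * d ≤ 6 * (Real.logb 2 r + 1) ^ 5 * d := by
    have : 2 * (Nat.clog 2 ((r + 1) ^ 2) : ℝ) ≤ 6 * (Real.logb 2 r + 1) ^ 5 := by linarith
    gcongr
  nlinarith [mul_nonneg (Nat.cast_nonneg (α := ℝ) e) (by positivity : (0:ℝ) ≤ (Real.logb 2 r + 1) ^ 5)]

section

variable {X Y : Type}

/-- `S` is a *sum patch* of rows of the Boolean matrix `F`, with `d` box coordinates and `e`
generators: there are a finite abelian group `A` generated by `e` elements, a box `∏ i, [m i]` of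
dimension `d`, a parametrisation `φ` of (a set of rows containing) `S` by `A × ∏ i, [m i]`, and a
covering of all the columns by the images of any finite number of maps `ψ q` of `A × ∏ i, [m i]`, such
that the entry of `F` at `(φ a u, ψ q b v)` depends only on `q`, on `a + b` and on `u + v`. -/
def SumPatch (F : X → Y → Bool) (d e : ℕ) (S : Set X) : Prop :=
  ∃ (A : Type) (_ : AddCommGroup A) (_ : Fintype A) (gens : Fin e → A) (m : Fin d → ℕ)
    (Q : Type) (_ : Fintype Q) (φ : A → (∀ i, Fin (m i)) → X) (ψ : Q → A → (∀ i, Fin (m i)) → Y),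
    AddSubgroup.closure (Set.range gens) = ⊤ ∧
    (∀ x ∈ S, ∃ a u, φ a u = x) ∧ (∀ y, ∃ q b v, ψ q b v = y) ∧
    ∀ (q : Q) (a a' b b' : A) (u u' v v' : ∀ i, Fin (m i)), a + b = a' + b' →
      (∀ i, (u i : ℕ) + v i = u' i + v' i) → F (φ a u) (ψ q b v) = F (φ a' u') (ψ q b' v')

theorem zcomb {A : Type} [AddCommGroup A] {e : ℕ} (gens : Fin e → A)
    (hgens : AddSubgroup.closure (Set.range gens) = ⊤) (x : A) :
    ∃ a : Fin e → ℤ, x = ∑ i, a i • gens i := by
  have hx : x ∈ Submodule.span ℤ (Set.range gens) := by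
    have : x ∈ (Submodule.span ℤ (Set.range gens)).toAddSubgroup := by
      rw [Submodule.span_int_eq_addSubgroupClosure, hgens]
      exact AddSubgroup.mem_top x
    exact this
  rw [Submodule.mem_span_range_iff_exists_fun] at hx
  obtain ⟨a, ha⟩ := hx
  exact ⟨a, ha.symm⟩

/-- the protocol for one patch -/
theorem patch_proto [Fintype X] [Fintype Y] (F : X → Y → Bool) (d e : ℕ) (S : Set X)
    (h : SumPatch F d e S) : ∃ F' : X → Y → Bool, Proto F' (pcost d e (comm F).rank) ∧
      ∀ x ∈ S, ∀ y, F' x y = F x y := by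
  classical
  obtain ⟨A, _, _, gens, m, Q, _, φ, ψ, hgens, hS, hY, hF⟩ := h
  rcases S.eq_empty_or_nonempty with h0 | ⟨x0, hx0⟩
  · refine ⟨fun _ _ => false, (Proto.const _ false fun _ _ => rfl).mono (Nat.zero_le _), ?_⟩
    intro x hx
    rw [h0] at hx
    exact absurd hx (Set.notMem_empty x)
  obtain ⟨a0, u0, -⟩ := hS x0 hx0
  -- the function of the sums
  let f : Q → A → (Fin d → ℕ) → Bool := fun q a w =>
    if hh : ∃ (a' b' : A) (u : ∀ i, Fin (m i)) (v : ∀ i, Fin (m i)),
        a' + b' = a ∧ ∀ i, (u i : ℕ) + v i = w i then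
      F (φ hh.choose hh.choose_spec.choose_spec.choose)
        (ψ q hh.choose_spec.choose hh.choose_spec.choose_spec.choose_spec.choose)
    else false
  have hf : ∀ (x : A × (∀ i, Fin (m i))) (y : Q × A × (∀ i, Fin (m i))),
      mh m m f x y = F (φ x.1 x.2) (ψ y.1 y.2.1 y.2.2) := by
    rintro ⟨a, u⟩ ⟨q, b, v⟩
    simp only [mh, f]
    have hh : ∃ (a' b' : A) (u' : ∀ i, Fin (m i)) (v' : ∀ i, Fin (m i)),
        a' + b' = a + b ∧ ∀ i, (u' i : ℕ) + v' i = (u i : ℕ) + v i :=
      ⟨a, b, u, v, rfl, fun i => rfl⟩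
    rw [dif_pos hh]
    have h1 := hh.choose_spec.choose_spec.choose_spec.choose_spec
    exact hF q _ _ _ _ _ _ _ _ h1.1 h1.2
  have hr : (comm (mh m m f)).rank ≤ (comm F).rank := by
    have : comm (mh m m f) = (comm F).submatrix (fun x : A × (∀ i, Fin (m i)) => φ x.1 x.2)
        (fun y : Q × A × (∀ i, Fin (m i)) => ψ y.1 y.2.1 y.2.2) := by
      ext x y
      rw [Matrix.submatrix_apply, cm, cm, hf]
    rw [this]
    exact Matrix.rank_submatrix_le _ _ _
  have hp := reduce (comm F).rank (Nat.clog 2 (((comm F).rank + 1) ^ 2))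
    (Nat.le_pow_clog (by norm_num) _) d Q A e gens (zcomb gens hgens) m m (fun _ => le_rfl) f hr
  let sX : X → A × (∀ i, Fin (m i)) := fun x =>
    if hx : x ∈ S then ((hS x hx).choose, (hS x hx).choose_spec.choose) else (a0, u0)
  choose q b v hqbv using hY
  refine ⟨fun x y => mh m m f (sX x) (q y, b y, v y), hp.comap sX (fun y => (q y, b y, v y)),
    fun x hx y => ?_⟩
  show mh m m f (sX x) (q y, b y, v y) = F x y
  rw [hf]
  have h1 : φ (sX x).1 (sX x).2 = x := by
    simp only [sX, dif_pos hx]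
    exact (hS x hx).choose_spec.choose_spec
  rw [h1]
  simp only [hqbv]

/-- **Matrices covered by sum patches of rows.** -/
theorem final_matrix [Fintype X] [Fintype Y] (F : X → Y → Bool) (d e : ℕ) {P : Type} [Fintype P]
    (S : P → Set X) (hS : ∀ x, ∃ p, x ∈ S p) (h : ∀ p, SumPatch F d e (S p)) :
    ∃ c : ℕ, Proto F c ∧ (c : ℝ) ≤ (8 * (d + e) + 5) * (Real.logb 2 ((comm F).rank : ℝ) + 1) ^ 5 +
      Real.logb 2 (Fintype.card P : ℝ) := by
  classical
  choose Fp hproto hval using fun p => patch_proto F d e (S p) (h p)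
  choose g hg using hS
  refine ⟨pcost d e (comm F).rank + Nat.clog 2 (Fintype.card P),
    Proto.sendX F g _ (Nat.le_pow_clog (by norm_num) _) Fp _ hproto
      (fun x y => (hval (g x) x (hg x) y).symm), ?_⟩
  have h1 := pcost_le d e (comm F).rank
  have h2 := clog_le (Fintype.card P)
  have hl := logb_nonneg (comm F).rank
  have h6 : (1 : ℝ) ≤ (Real.logb 2 ((comm F).rank : ℝ) + 1) ^ 5 :=
    one_le_pow₀ (by linarith)
  push_cast
  linarith

end

/-! ### Graphs -/

section

variable {V : Type}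

/-- `S` is a patch of vertices of the graph `G`, with `d` box coordinates and `e` generators: there are
a finite abelian group `A` generated by `e` elements, a box `∏ i, [m i]` of dimension `d` and a
parametrisation `φ` of (a set containing) `S` by `A × ∏ i, [m i]`, such that the adjacency of
`φ a u` and `φ b v` depends only on `a + b` and `u + v`, or depends only on `a - b` and `u - v`. -/
def GraphPatch (G : SimpleGraph V) (d e : ℕ) (S : Set V) : Prop :=
  ∃ (A : Type) (_ : AddCommGroup A) (_ : Fintype A) (gens : Fin e → A) (m : Fin d → ℕ)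
    (φ : A → (∀ i, Fin (m i)) → V),
    AddSubgroup.closure (Set.range gens) = ⊤ ∧ (∀ x ∈ S, ∃ a u, φ a u = x) ∧
    ((∀ (a a' b b' : A) (u u' v v' : ∀ i, Fin (m i)), a + b = a' + b' →
      (∀ i, (u i : ℤ) + v i = u' i + v' i) →
      (G.Adj (φ a u) (φ b v) ↔ G.Adj (φ a' u') (φ b' v'))) ∨
    (∀ (a a' b b' : A) (u u' v v' : ∀ i, Fin (m i)), a - b = a' - b' →
      (∀ i, (u i : ℤ) - v i = u' i - v' i) →
      (G.Adj (φ a u) (φ b v) ↔ G.Adj (φ a' u') (φ b' v'))))

theorem patch_color [Fintype V] (G : SimpleGraph V) [DecidableRel G.Adj] (d e : ℕ) (S : Set V)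
    (h : GraphPatch G d e S) : ∃ k : V → Fin (2 ^ pcost d e (G.adjMatrix ℝ).rank),
      ∀ x ∈ S, ∀ y ∈ S, G.Adj x y → k x ≠ k y := by
  classical
  obtain ⟨A, _, _, gens, m, φ, hgens, hS, hF⟩ := h
  -- the graph on the parameters
  let φ' : A × (∀ i, Fin (m i)) → V := fun x => φ x.1 x.2
  let H : SimpleGraph (A × (∀ i, Fin (m i))) := G.comap φ'
  have hdec : DecidableRel H.Adj := Classical.decRel _
  let F : (A × (∀ i, Fin (m i))) → (A × (∀ i, Fin (m i))) → Bool := fun x y =>
    decide (G.Adj (φ' x) (φ' y))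
  have hrk : (comm F).rank ≤ (G.adjMatrix ℝ).rank := by
    have : comm F = (G.adjMatrix ℝ).submatrix φ' φ' := by
      rw [← Pool.Agent.H287R3.LR.comm_adj]
      rfl
    rw [this]
    exact Matrix.rank_submatrix_le _ _ _
  have hmono : ∀ {r r' : ℕ}, r ≤ r' → pcost d e r ≤ pcost d e r' := by
    intro r r' hrr
    unfold pcost fcost
    have h1 : Nat.clog 2 (2 * r) ≤ Nat.clog 2 (2 * r') := Nat.clog_mono_right 2 (by omega)
    have h2 : Nat.clog 2 (2 * r + 1) ≤ Nat.clog 2 (2 * r' + 1) := Nat.clog_mono_right 2 (by omega)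
    have h3 : Nat.clog 2 ((r + 1) ^ 2) ≤ Nat.clog 2 ((r' + 1) ^ 2) :=
      Nat.clog_mono_right 2 (Nat.pow_le_pow_left (by omega) 2)
    have h4 : ∑ j ∈ range (Nat.log 2 r + 2), j ^ 3 ≤ ∑ j ∈ range (Nat.log 2 r' + 2), j ^ 3 :=
      Finset.sum_le_sum_of_subset (Finset.range_subset_range.2
        (Nat.add_le_add_right (Nat.log_mono_right hrr) 2))
    gcongr
  have hp : Proto F (pcost d e (comm F).rank) := by
    rcases hF with hF | hF
    · obtain ⟨F', h1, h2⟩ := patch_proto F d e Set.univ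
        ⟨A, inferInstance, inferInstance, gens, m, Unit, inferInstance, fun a u => (a, u),
          fun _ b v => (b, v), hgens, fun x _ => ⟨x.1, x.2, rfl⟩,
          fun y => ⟨(), y.1, y.2, rfl⟩, fun _ a a' b b' u u' v v' hab huv => by
            simp only [F, φ', decide_eq_decide]
            exact hF a a' b b' u u' v v' hab (fun i => by exact_mod_cast huv i)⟩
      have : F' = F := by
        funext x y
        exact h2 x (Set.mem_univ x) y
      rwa [this] at h1
    · obtain ⟨F', h1, h2⟩ := patch_proto F d e Set.univ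
        ⟨A, inferInstance, inferInstance, gens, m, Unit, inferInstance, fun a u => (a, u),
          fun _ b v => (-b, fun i => (v i).rev), hgens,
          fun x _ => ⟨x.1, x.2, rfl⟩,
          fun y => ⟨(), -y.1, fun i => (y.2 i).rev, by simp⟩,
          fun _ a a' b b' u u' v v' hab huv => by
            simp only [F, φ', decide_eq_decide]
            refine hF a a' (-b) (-b') u u' _ _ (by rw [sub_neg_eq_add, sub_neg_eq_add, hab])
              (fun i => ?_)
            have h3 := huv i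
            have h4 := (v i).2
            have h5 := (v' i).2
            rw [Fin.val_rev, Fin.val_rev]
            omega⟩
      have : F' = F := by
        funext x y
        exact h2 x (Set.mem_univ x) y
      rwa [this] at h1
  have hp2 : Proto (fun x y => decide (H.Adj x y)) (pcost d e (G.adjMatrix ℝ).rank) := by
    have : (fun x y => decide (H.Adj x y)) = F := by
      funext x y
      simp only [F, H, SimpleGraph.comap_adj]
    rw [this]
    exact hp.mono (hmono hrk)
  obtain ⟨col⟩ := Pool.Agent.H287R3.LR.colorable_of_proto H hp2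
  refine ⟨fun x => if hx : x ∈ S then col ((hS x hx).choose, (hS x hx).choose_spec.choose)
    else ⟨0, by positivity⟩, fun x hx y hy hxy => ?_⟩
  simp only [dif_pos hx, dif_pos hy]
  apply col.valid
  show G.Adj (φ _ _) (φ _ _)
  rw [(hS x hx).choose_spec.choose_spec, (hS y hy).choose_spec.choose_spec]
  exact hxy

/-- **Graphs covered by patches.** -/
theorem final_graph [Fintype V] (G : SimpleGraph V) [DecidableRel G.Adj] (d e : ℕ) {P : Type}
    [Fintype P] (S : P → Set V) (hS : ∀ x, ∃ p, x ∈ S p) (h : ∀ p, GraphPatch G d e (S p)) :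
    Real.logb 2 (G.chromaticNumber.toNat : ℝ) ≤
      (8 * (d + e) + 5) * (Real.logb 2 ((G.adjMatrix ℝ).rank : ℝ) + 1) ^ 5 +
      Real.logb 2 (Fintype.card P : ℝ) := by
  classical
  choose k hk using fun p => patch_color G d e (S p) (h p)
  choose g hg using hS
  have hcol : G.Coloring (P × Fin (2 ^ pcost d e (G.adjMatrix ℝ).rank)) := by
    refine SimpleGraph.Coloring.mk (fun x => (g x, k (g x) x)) ?_
    intro x y hxy heq
    rw [Prod.mk.injEq] at heq
    obtain ⟨h1, h2⟩ := heq
    rw [h1] at h2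
    exact hk (g y) x (h1 ▸ hg x) y (hg y) hxy h2
  have h1 := hcol.colorable
  rw [Fintype.card_prod, Fintype.card_fin] at h1
  have hb := pcost_le d e (G.adjMatrix ℝ).rank
  generalize pcost d e (G.adjMatrix ℝ).rank = c at h1 hb
  have h2 : G.chromaticNumber ≤ ((Fintype.card P * 2 ^ c : ℕ) : ℕ∞) := h1.chromaticNumber_le
  have h3 : G.chromaticNumber.toNat ≤ Fintype.card P * 2 ^ c := by
    have := ENat.toNat_le_toNat h2 (ENat.natCast_ne_top _)
    rwa [ENat.toNat_natCast] at this
  have hl := logb_nonneg (G.adjMatrix ℝ).rank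
  have h6 : (1 : ℝ) ≤ (Real.logb 2 ((G.adjMatrix ℝ).rank : ℝ) + 1) ^ 5 :=
    one_le_pow₀ (by linarith)
  have hP := logb_nonneg (Fintype.card P)
  rcases Nat.eq_zero_or_pos G.chromaticNumber.toNat with h0 | h0
  · rw [h0]
    simp only [Nat.cast_zero, Real.logb_zero]
    positivity
  · have hP0 : 0 < Fintype.card P := by
      rcases Nat.eq_zero_or_pos (Fintype.card P) with h | h
      · rw [h, zero_mul] at h3; omega
      · exact h
    have h4 : Real.logb 2 (G.chromaticNumber.toNat : ℝ) ≤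
        Real.logb 2 ((Fintype.card P * 2 ^ c : ℕ) : ℝ) :=
      Real.logb_le_logb_of_le (by norm_num) (by exact_mod_cast h0) (by exact_mod_cast h3)
    have h5 : Real.logb 2 ((Fintype.card P * 2 ^ c : ℕ) : ℝ) =
        Real.logb 2 (Fintype.card P : ℝ) + c := by
      push_cast
      rw [Real.logb_mul (by positivity) (by positivity), Real.logb_pow,
        Real.logb_self_eq_one (by norm_num), mul_one]
    rw [h5] at h4
    linarith

end

end Pool.Agent.K1H68.CP
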