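import Pool.Agent.K1H68.CP.Block
import Pool.Agent.K1H68.CP.Fam

/-!
# Multilevel Hankel matrices over a group: reduction to families of functions on a group
-/

set_option autoImplicit false
set_option linter.unusedSectionVars false

namespace Pool.Agent.K1H68.CP

open Finset Pool.Agent.H630R2.LR

/-- the matrix with entries `f q (a + b) (x + y)`, `(a, x)` in the group times the box `m`, `(b, y)` in the
group times the box `n` -/
def mh {Q A : Type} [Add A] {d : ℕ} (m n : Fin d → ℕ) (f : Q → A → (Fin d → ℕ) → Bool)
    (x : A × (∀ i, Fin (m i))) (y : Q × A × (∀ i, Fin (n i))) : Bool :=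
  f y.1 (x.1 + y.2.1) (fun i => (x.2 i : ℕ) + y.2.2 i)

/-- the boundary position of `x` -/
def bnd {m r : ℕ} (x : Fin m) : Option (Bool × Fin r) :=
  if h : (x : ℕ) < r then some (true, ⟨x, h⟩)
  else if h : m - 1 - (x : ℕ) < r then some (false, ⟨m - 1 - x, h⟩) else none

/-- its value -/
def val (m : ℕ) {r : ℕ} (p : Bool × Fin r) : ℕ := if p.1 then p.2 else m - 1 - p.2

theorem bnd_some {m r : ℕ} (x : Fin m) (p : Bool × Fin r) (h : bnd x = some p) :
    (x : ℕ) = val m p := by
  unfold bnd at h
  split_ifs at h with h1 h2
  · cases h; simp [val]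
  · cases h
    simp only [val, Bool.false_eq_true, if_false]
    omega

theorem bnd_none {m r : ℕ} (x : Fin m) (h : bnd (r := r) x = none) :
    r ≤ (x : ℕ) ∧ r ≤ m - 1 - x := by
  unfold bnd at h
  split_ifs at h with h1 h2
  exact ⟨by omega, by omega⟩

theorem val_lt {m r : ℕ} (h : r < m) (p : Bool × Fin r) : val m p < m := by
  unfold val
  have := p.2.2
  split_ifs <;> omega

theorem fun_cons {d : ℕ} (w : Fin (d + 1) → ℕ) : w = Fin.cons (w 0) (fun i => w i.succ) :=
  (Fin.cons_self_tail w).symm

/-- the general reduction -/
theorem reduce (r b : ℕ) (hb : (r + 1) ^ 2 ≤ 2 ^ b) : ∀ (d : ℕ) (Q A : Type) [Fintype Q]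
    [AddCommGroup A] [Fintype A] (e : ℕ) (gens : Fin e → A)
    (_ : ∀ x : A, ∃ a : Fin e → ℤ, x = ∑ i, a i • gens i) (m n : Fin d → ℕ) (_ : ∀ i, m i ≤ n i)
    (f : Q → A → (Fin d → ℕ) → Bool)
    (_ : (Pool.Agent.H630R2.LR.comm (mh m n f)).rank ≤ r),
    Proto (mh m n f) (fcost (e + d) r + 2 * b * d) := by
  classical
  intro d
  induction d with
  | zero =>
    intro Q A _ _ _ e gens hgens m n _ f hr
    have h1 := core1 (fun (q : Q) (a : A) => f q a (fun i => i.elim0)) e gens hgens r (by
      have : Pool.Agent.H630R2.LR.comm (fun (x : A) (y : Q × A) =>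
          (fun (q : Q) (a : A) => f q a (fun i => i.elim0)) y.1 (x + y.2)) =
          (Pool.Agent.H630R2.LR.comm (mh m n f)).submatrix
            (fun a => (a, fun i => i.elim0)) (fun y => (y.1, y.2, fun i => i.elim0)) := by
        ext x y
        simp only [Matrix.submatrix_apply, cm, mh]
        congr 2
        funext i
        exact i.elim0
      rw [this]
      exact (Matrix.rank_submatrix_le _ _ _).trans hr)
    have h2 := h1.comap (fun x : A × (∀ i, Fin (m i)) => x.1)
      (fun y : Q × A × (∀ i, Fin (n i)) => (y.1, y.2.1))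
    have e1 : mh m n f = fun (x : A × (∀ i, Fin (m i))) (y : Q × A × (∀ i, Fin (n i))) =>
        (fun (q : Q) (a : A) => f q a (fun i => i.elim0)) y.1 (x.1 + y.2.1) := by
      funext x y
      simp only [mh]
      congr 1
      funext i
      exact i.elim0
    rw [e1]
    exact h2.mono (by simp)
  | succ d ih =>
    intro Q A _ _ _ e gens hgens m n hmn f hr
    set m' : Fin d → ℕ := fun i => m i.succ with hm'
    set n' : Fin d → ℕ := fun i => n i.succ with hn'
    have hcost : ∀ e', e' ≤ e + (d + 1) → fcost e' r ≤ fcost (e + (d + 1)) r := by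
      intro e' he'
      unfold fcost
      gcongr
    -- the tail maps
    let tX : A × (∀ i, Fin (m i)) → A × (∀ i, Fin (m' i)) := fun x => (x.1, fun i => x.2 i.succ)
    by_cases hsm : m 0 ≤ (r + 1) ^ 2
    · -- Alice sends her coordinate
      have hcard : Fintype.card (Fin (m 0)) ≤ 2 ^ b := by
        rw [Fintype.card_fin]; exact hsm.trans hb
      have e1 : fcost (e + (d + 1)) r + 2 * b * (d + 1) =
        (fcost (e + (d + 1)) r + 2 * b * d + b) + b := by ring
      rw [e1]
      refine Proto.sendX _ (fun x => x.2 0) b hcard (fun (k : Fin (m 0)) x y =>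
        f y.1 (x.1 + y.2.1) (Fin.cons ((k : ℕ) + y.2.2 0) (fun i => (x.2 i.succ : ℕ) + y.2.2 i.succ)))
        _ (fun k => ?_) (fun x y => ?_)
      · set f' : (Q × Fin (n 0)) → A → (Fin d → ℕ) → Bool := fun q a w =>
          f q.1 a (Fin.cons ((k : ℕ) + q.2) w) with hf'
        have hr' : (Pool.Agent.H630R2.LR.comm (mh m' n' f')).rank ≤ r := by
          have : Pool.Agent.H630R2.LR.comm (mh m' n' f') =
              (Pool.Agent.H630R2.LR.comm (mh m n f)).submatrix
                (fun x : A × (∀ i, Fin (m' i)) => (x.1, Fin.cons (α := fun i => Fin (m i)) k x.2))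
                (fun y : (Q × Fin (n 0)) × A × (∀ i, Fin (n' i)) =>
                  (y.1.1, y.2.1, Fin.cons (α := fun i => Fin (n i)) y.1.2 y.2.2)) := by
            ext x y
            simp only [Matrix.submatrix_apply, cm, mh, hf']
            congr 2
            rw [fun_cons (fun i => ((Fin.cons (α := fun i => Fin (m i)) k x.2 i : Fin (m i)) : ℕ) +
              ((Fin.cons (α := fun i => Fin (n i)) y.1.2 y.2.2 i : Fin (n i)) : ℕ))]
            rfl
          rw [this]
          exact (Matrix.rank_submatrix_le _ _ _).trans hr
        have h1 := ih (Q × Fin (n 0)) A e gens hgens m' n' (fun i => hmn i.succ) f' hr'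
        have h2 := h1.comap tX (fun y : Q × A × (∀ i, Fin (n i)) =>
          (((y.1, y.2.2 0), y.2.1, fun i => y.2.2 i.succ) : (Q × Fin (n 0)) × A × (∀ i, Fin (n' i))))
        refine Proto.mono h2 ?_
        have := hcost (e + d) (by omega)
        omega
      · simp only [mh]
        congr 1
        exact fun_cons _
    · rw [not_le] at hsm
      have hsn : (r + 1) ^ 2 < n 0 := lt_of_lt_of_le hsm (hmn 0)
      have hsq : (r + 1) ^ 2 = r ^ 2 + 2 * r + 1 := by ring
      have hrm : r < m 0 := by nlinarith
      have hrn : r < n 0 := by nlinarith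
      have hcardQ : Fintype.card (Option (Bool × Fin r)) ≤ 2 ^ b := by
        rw [Fintype.card_option, Fintype.card_prod, Fintype.card_bool, Fintype.card_fin]
        refine le_trans ?_ hb
        nlinarith
      -- the extension
      set σ : (A × (∀ i, Fin (m' i))) → (Q × A × (∀ i, Fin (n' i))) → ℕ → Bool := fun p q t =>
        f q.1 (p.1 + q.2.1) (Fin.cons t (fun i => (p.2 i : ℕ) + q.2.2 i)) with hσ
      have hrσ : (Pool.Agent.H630R2.LR.comm (bl (m 0) (n 0) σ)).rank ≤ r := by
        have : Pool.Agent.H630R2.LR.comm (bl (m 0) (n 0) σ) =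
            (Pool.Agent.H630R2.LR.comm (mh m n f)).submatrix
              (fun x : Fin (m 0) × (A × (∀ i, Fin (m' i))) =>
                (x.2.1, Fin.cons (α := fun i => Fin (m i)) x.1 x.2.2))
              (fun y : Fin (n 0) × (Q × A × (∀ i, Fin (n' i))) =>
                (y.2.1, y.2.2.1, Fin.cons (α := fun i => Fin (n i)) y.1 y.2.2.2)) := by
          ext x y
          simp only [Matrix.submatrix_apply, cm, mh, bl, hσ]
          congr 2
          rw [fun_cons (fun i => ((Fin.cons (α := fun i => Fin (m i)) x.1 x.2.2 i : Fin (m i)) : ℕ) +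
            ((Fin.cons (α := fun i => Fin (n i)) y.1 y.2.2.2 i : Fin (n i)) : ℕ))]
          rfl
        rw [this]
        exact (Matrix.rank_submatrix_le _ _ _).trans hr
      have hblZ := block_rank (m 0) (n 0) r σ hsm hsn hrσ
      set f2 : Q → (A × ZMod (per r)) → (Fin d → ℕ) → Bool := fun q a w =>
        extZ (m 0) (n 0) r (fun t => f q a.1 (Fin.cons t w)) a.2 with hf2
      have hr2 : (Pool.Agent.H630R2.LR.comm (mh m' n' f2)).rank ≤ r := by
        have : Pool.Agent.H630R2.LR.comm (mh m' n' f2) =
            (Pool.Agent.H630R2.LR.comm (blZ (m 0) (n 0) r σ)).submatrix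
              (fun x : (A × ZMod (per r)) × (∀ i, Fin (m' i)) => (x.1.2, x.1.1, x.2))
              (fun y : Q × (A × ZMod (per r)) × (∀ i, Fin (n' i)) =>
                (y.2.1.2, y.1, y.2.1.1, y.2.2)) := by
          ext x y
          simp only [Matrix.submatrix_apply, cm, mh, blZ, hσ, hf2]
          rfl
        rw [this]
        exact (Matrix.rank_submatrix_le _ _ _).trans hblZ
      have hgens2 : ∀ x : A × ZMod (per r), ∃ a : Fin (e + 1) → ℤ, x = ∑ i, a i •
          ((Fin.cons ((0, 1) : A × ZMod (per r)) (fun i => (gens i, 0)) :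
            Fin (e + 1) → A × ZMod (per r)) i) := by
        rintro ⟨x, u⟩
        obtain ⟨a, ha⟩ := hgens x
        refine ⟨Fin.cons (u.val : ℤ) a, ?_⟩
        rw [Fin.sum_univ_succ]
        simp only [Fin.cons_zero, Fin.cons_succ]
        have h3 : ∑ i, a i • ((gens i, 0) : A × ZMod (per r)) = (x, 0) := by
          rw [ha]
          ext
          · rw [Prod.fst_sum]
            simp
          · rw [Prod.snd_sum]
            simp
        rw [h3]
        ext
        · simp
        · simp
      have hlarge := ih Q (A × ZMod (per r)) (e + 1) _ hgens2 m' n' (fun i => hmn i.succ) f2 hr2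
      have e1 : fcost (e + (d + 1)) r + 2 * b * (d + 1) =
        (fcost (e + (d + 1)) r + 2 * b * d + b) + b := by ring
      rw [e1]
      -- the value when not both are on the boundary
      let big : A × (∀ i, Fin (m i)) → Q × A × (∀ i, Fin (n i)) → Bool := fun x y =>
        f2 y.1 (x.1 + y.2.1, ((x.2 0 : ℕ) : ZMod (per r)) + ((y.2.2 0 : ℕ) : ZMod (per r)))
          (fun i => (x.2 i.succ : ℕ) + y.2.2 i.succ)
      have hbig : ∀ x y, r ≤ (x.2 0 : ℕ) + y.2.2 0 → (x.2 0 : ℕ) + y.2.2 0 + 1 + r < m 0 + n 0 →
          big x y = mh m n f x y := by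
        intro x y h1 h2
        simp only [big, hf2, mh]
        have hspec := ext_spec (σ (x.1, fun i => x.2 i.succ) (y.1, y.2.1, fun i => y.2.2 i.succ))
          (m 0) (n 0) r hsm hsn ((rank_entry (m 0) (n 0) σ _ _).trans hrσ)
        have h3 := hspec.1 _ h2
        rw [ext_eq_extZ hspec _ h1] at h3
        push_cast at h3
        refine Eq.trans h3 ?_
        simp only [hσ]
        congr 1
        exact (fun_cons (fun i => ((x.2 i : ℕ) + y.2.2 i))).symm
      have hprotoBig : Proto big (fcost (e + (d + 1)) r + 2 * b * d) := by
        have h2 := hlarge.comap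
          (fun x : A × (∀ i, Fin (m i)) =>
            (((x.1, ((x.2 0 : ℕ) : ZMod (per r))), fun i => x.2 i.succ) :
              (A × ZMod (per r)) × (∀ i, Fin (m' i))))
          (fun y : Q × A × (∀ i, Fin (n i)) =>
            ((y.1, (y.2.1, ((y.2.2 0 : ℕ) : ZMod (per r))), fun i => y.2.2 i.succ) :
              Q × (A × ZMod (per r)) × (∀ i, Fin (n' i))))
        refine Proto.mono h2 ?_
        have := hcost (e + 1 + d) (by omega)
        omega
      refine Proto.sendX _ (fun x : A × (∀ i, Fin (m i)) => bnd (r := r) (x.2 0)) b hcardQ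
        (fun o x y => match o with
          | none => big x y
          | some p => match bnd (r := r) (y.2.2 0) with
            | none => big x y
            | some p' => f y.1 (x.1 + y.2.1) (Fin.cons (val (m 0) p + val (n 0) p')
                (fun i => (x.2 i.succ : ℕ) + y.2.2 i.succ))) _ (fun o => ?_) (fun x y => ?_)
      · cases o with
        | none => exact hprotoBig.mono (by omega)
        | some p =>
          refine Proto.sendY _ (fun y : Q × A × (∀ i, Fin (n i)) => bnd (r := r) (y.2.2 0)) b hcardQ
            (fun o' x y => match o' with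
              | none => big x y
              | some p' => f y.1 (x.1 + y.2.1) (Fin.cons (val (m 0) p + val (n 0) p')
                (fun i => (x.2 i.succ : ℕ) + y.2.2 i.succ))) _ (fun o' => ?_) (fun x y => rfl)
          cases o' with
          | none => exact hprotoBig
          | some p' =>
            set f' : Q → A → (Fin d → ℕ) → Bool := fun q a w =>
              f q a (Fin.cons (val (m 0) p + val (n 0) p') w) with hf'
            have hr' : (Pool.Agent.H630R2.LR.comm (mh m' n' f')).rank ≤ r := by
              have : Pool.Agent.H630R2.LR.comm (mh m' n' f') =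
                  (Pool.Agent.H630R2.LR.comm (mh m n f)).submatrix
                    (fun x : A × (∀ i, Fin (m' i)) =>
                      (x.1, Fin.cons (α := fun i => Fin (m i)) ⟨val (m 0) p, val_lt hrm p⟩ x.2))
                    (fun y : Q × A × (∀ i, Fin (n' i)) =>
                      (y.1, y.2.1, Fin.cons (α := fun i => Fin (n i))
                        ⟨val (n 0) p', val_lt hrn p'⟩ y.2.2)) := by
                ext x y
                simp only [Matrix.submatrix_apply, cm, mh, hf']
                congr 2
                rw [fun_cons (fun i => ((Fin.cons (α := fun i => Fin (m i))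
                  ⟨val (m 0) p, val_lt hrm p⟩ x.2 i : Fin (m i)) : ℕ) +
                  ((Fin.cons (α := fun i => Fin (n i)) ⟨val (n 0) p', val_lt hrn p'⟩ y.2.2 i :
                    Fin (n i)) : ℕ))]
                rfl
              rw [this]
              exact (Matrix.rank_submatrix_le _ _ _).trans hr
            have h1 := ih Q A e gens hgens m' n' (fun i => hmn i.succ) f' hr'
            have h2 := h1.comap tX (fun y : Q × A × (∀ i, Fin (n i)) =>
              ((y.1, y.2.1, fun i => y.2.2 i.succ) : Q × A × (∀ i, Fin (n' i))))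
            refine Proto.mono h2 ?_
            have := hcost (e + d) (by omega)
            omega
      · cases hx : bnd (r := r) (x.2 0) with
        | none =>
          have h1 := bnd_none _ hx
          refine (hbig x y (by omega) ?_).symm
          have := (y.2.2 0).2
          have := (x.2 0).2
          omega
        | some p =>
          cases hy : bnd (r := r) (y.2.2 0) with
          | none =>
            have h1 := bnd_none _ hy
            refine (hbig x y (by omega) ?_).symm
            have := (y.2.2 0).2
            have := (x.2 0).2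
            omega
          | some p' =>
            simp only
            rw [← bnd_some _ p hx, ← bnd_some _ p' hy]
            simp only [mh]
            congr 1
            exact fun_cons (fun i => ((x.2 i : ℕ) + y.2.2 i))

end Pool.Agent.K1H68.CP
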