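import Pool.Agent.H630R2.LR.Hankel

/-!
# Boolean sequences with a Hankel window of small rank

`ext m n r s` is the extension of the sequence `s`, of which only the window `t < m + n - 1` matters,
to a sequence which is periodic from `r` on with the universal period `(2 ^ r)!`.
-/

set_option autoImplicit false

namespace Pool.Agent.K1H68.CP

open Finset Pool.Agent.H630R2.LR Pool.Agent.H431R2.Hankel

/-- a `0/1` sequence of order `r` is periodic from `r` on, with a period at most `2 ^ r` -/
theorem rec_periodic {F : ℕ → ℝ} {r : ℕ} (h : Rec F r) (h01 : ∀ t, F t = 0 ∨ F t = 1) :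
    ∃ N, 0 < N ∧ N ≤ 2 ^ r ∧ ∀ t, r ≤ t → F (t + N) = F t := by
  classical
  let w : ℕ → (Fin r → Bool) := fun t i => decide (F (t + i) = 1)
  have hpp : ∃ t0 t1, t0 < t1 ∧ t1 ≤ 2 ^ r ∧ w t0 = w t1 := by
    have hc : (univ : Finset (Fin r → Bool)).card < (range (2 ^ r + 1)).card := by
      rw [card_univ, Fintype.card_fun, Fintype.card_bool, Fintype.card_fin, card_range]
      exact Nat.lt_succ_self _
    obtain ⟨x, hx, y, hy, hxy, hw⟩ := Finset.exists_ne_map_eq_of_card_lt_of_maps_to hc
      (f := w) (fun _ _ => mem_univ _)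
    rw [mem_range] at hx hy
    rcases lt_or_gt_of_ne hxy with h | h
    · exact ⟨x, y, h, by omega, hw⟩
    · exact ⟨y, x, h, by omega, hw.symm⟩
  obtain ⟨t0, t1, hlt, ht1, hw⟩ := hpp
  have hF : ∀ i < r, F (t0 + i) = F (t1 + i) := by
    intro i hi
    have h1 := congrFun hw ⟨i, hi⟩
    simp only [w, decide_eq_decide] at h1
    rcases h01 (t0 + i) with ha | ha <;> rcases h01 (t1 + i) with hb | hb
    · rw [ha, hb]
    · exact absurd (h1.2 hb) (by rw [ha]; norm_num)
    · exact absurd (h1.1 ha) (by rw [hb]; norm_num)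
    · rw [ha, hb]
  obtain ⟨V, hfd, hD, hV, hh⟩ := h
  let S := Pool.Agent.H431R2.Hankel.T V hV
  let F' : V := ⟨F, hh⟩
  have hdiff : ∀ t, F (t + t1) - F (t + t0) = 0 := by
    have hmem : (fun t => F (t + t1) - F (t + t0)) ∈ V := by
      have : (fun t => F (t + t1) - F (t + t0)) = (((S ^ t1) F' - (S ^ t0) F' : V) : ℕ → ℝ) := by
        funext t
        simp only [AddSubgroupClass.coe_sub, Pi.sub_apply]
        rw [T_pow_apply, T_pow_apply]
      rw [this]; exact Subtype.property _
    exact Pool.Agent.H431R2.Hankel.key V hV hD hmem (fun t ht => by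
      rw [add_comm t t1, add_comm t t0, hF t ht, sub_self])
  refine ⟨t1 - t0, by omega, by omega, ?_⟩
  let u : V := (S ^ (t1 - t0)) F' - F'
  have hu : (S ^ t0) u = 0 := by
    apply Subtype.ext
    funext t
    simp only [u, map_sub, AddSubgroupClass.coe_sub, Pi.sub_apply, ZeroMemClass.coe_zero,
      Pi.zero_apply]
    rw [T_pow_apply, T_pow_apply, T_pow_apply]
    have h1 := hdiff t
    have h2 : t + t0 + (t1 - t0) = t + t1 := by omega
    rw [h2]; exact h1
  have hu2 : (S ^ (Module.finrank ℝ V)) u = 0 := by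
    have := Module.End.ker_pow_le_ker_pow_finrank S t0
    exact this hu
  intro t ht
  have h3 := congrArg (fun v : V => (v : ℕ → ℝ) (t - Module.finrank ℝ V)) hu2
  simp only [u, map_sub, AddSubgroupClass.coe_sub, Pi.sub_apply, ZeroMemClass.coe_zero,
      Pi.zero_apply] at h3
  rw [T_pow_apply, T_pow_apply, T_pow_apply] at h3
  have h4 : t - Module.finrank ℝ V + Module.finrank ℝ V = t := by omega
  rw [h4] at h3
  linarith

/-- the universal period -/
def per (r : ℕ) : ℕ := (2 ^ r).factorial

instance (r : ℕ) : NeZero (per r) := ⟨(Nat.factorial_pos _).ne'⟩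

theorem per_pos (r : ℕ) : 0 < per r := Nat.factorial_pos _

theorem rec_per {F : ℕ → ℝ} {r : ℕ} (h : Rec F r) (h01 : ∀ t, F t = 0 ∨ F t = 1) :
    ∀ t, r ≤ t → F (t + per r) = F t := by
  obtain ⟨N, h1, h2, h3⟩ := rec_periodic h h01
  obtain ⟨k, hk⟩ : N ∣ per r := Nat.dvd_factorial h1 h2
  have aux : ∀ k t, r ≤ t → F (t + N * k) = F t := by
    intro k
    induction k with
    | zero => intro t _; simp
    | succ k ih =>
      intro t ht
      rw [show t + N * (k + 1) = (t + N * k) + N by ring, h3 _ (by omega), ih t ht]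
  intro t ht
  rw [hk, aux k t ht]

/-- linear combinations of shifts -/
theorem rec_lincomb {F : ℕ → ℝ} {r : ℕ} (h : Rec F r) (k : ℕ) (w : ℕ → ℝ) :
    Rec (fun t => ∑ i ∈ range k, w i * F (t + i)) r := by
  obtain ⟨V, hfd, hD, hV, hh⟩ := h
  refine ⟨V, hfd, hD, hV, ?_⟩
  have : (fun t => ∑ i ∈ range k, w i * F (t + i)) =
      ((∑ i ∈ range k, w i • ((Pool.Agent.H431R2.Hankel.T V hV) ^ i) ⟨F, hh⟩ : V) : ℕ → ℝ) := by
    funext t
    rw [Submodule.coe_sum, Finset.sum_apply]
    refine Finset.sum_congr rfl fun i _ => ?_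
    rw [Submodule.coe_smul, Pi.smul_apply, T_pow_apply, smul_eq_mul]
  rw [this]
  exact Subtype.property _

/-- `e` extends the window of `s` -/
def IsExt (m n r : ℕ) (s e : ℕ → Bool) : Prop :=
  (∀ t, t + 1 + r < m + n → e t = s t) ∧ (∀ t, r ≤ t → e (t + per r) = e t) ∧
    Rec (fun t => if e t then (1 : ℝ) else 0) r

theorem exists_ext (s : ℕ → Bool) (m n r : ℕ) (hm : (r + 1) ^ 2 < m) (hn : (r + 1) ^ 2 < n)
    (hr : (comm (fun (i : Fin m) (j : Fin n) => s (i + j))).rank ≤ r) :
    ∃ e, IsExt m n r s e := by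
  classical
  have hsq : (r + 1) ^ 2 = r ^ 2 + 2 * r + 1 := by ring
  obtain ⟨F, hrec, haF⟩ := Pool.Agent.H630R2.LR.rec_ext (fun t => if s t then (1 : ℝ) else 0) r m n
    (by nlinarith) (by nlinarith) (fun i hi => hankel_dep s m n r hr i hi)
  have h01 : ∀ t, F t = 0 ∨ F t = 1 := by
    refine Pool.Agent.H630R2.LR.Rec.bool hrec (T := m + n - 1 - r) (by omega) (fun t ht => ?_)
    rw [← haF t (by omega)]
    by_cases h : s t <;> simp [h]
  have he : ∀ t, (if decide (F t = 1) then (1 : ℝ) else 0) = F t := by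
    intro t
    rcases h01 t with h | h
    · rw [h]; simp
    · rw [h]; simp
  refine ⟨fun t => decide (F t = 1), fun t ht => ?_, fun t ht => ?_, ?_⟩
  · have h1 := haF t ht
    by_cases h : s t
    · rw [h] at h1 ⊢
      simp only [if_true] at h1
      simp [← h1]
    · simp only [h] at h1 ⊢
      simp only [Bool.false_eq_true, if_false] at h1
      simp [← h1]
  · simp only [rec_per hrec h01 t ht]
  · have : (fun t => if decide (F t = 1) = true then (1 : ℝ) else 0) = F := funext he
    rw [this]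
    exact hrec

open Classical in
/-- the extension -/
noncomputable def ext (m n r : ℕ) (s : ℕ → Bool) : ℕ → Bool :=
  if h : ∃ e, IsExt m n r s e then h.choose else fun _ => false

theorem ext_spec (s : ℕ → Bool) (m n r : ℕ) (hm : (r + 1) ^ 2 < m) (hn : (r + 1) ^ 2 < n)
    (hr : (comm (fun (i : Fin m) (j : Fin n) => s (i + j))).rank ≤ r) :
    IsExt m n r s (ext m n r s) := by
  have h := exists_ext s m n r hm hn hr
  unfold ext
  rw [dif_pos h]
  exact h.choose_spec

/-- the extension as a function on `ZMod (per r)` -/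
noncomputable def extZ (m n r : ℕ) (s : ℕ → Bool) (u : ZMod (per r)) : Bool :=
  ext m n r s (u.val + per r * r)

theorem ext_eq_extZ {s : ℕ → Bool} {m n r : ℕ} (h : IsExt m n r s (ext m n r s)) (t : ℕ)
    (ht : r ≤ t) : ext m n r s t = extZ m n r s (t : ZMod (per r)) := by
  have hper2 : ∀ k t, r ≤ t → ext m n r s (t + per r * k) = ext m n r s t := by
    intro k
    induction k with
    | zero => intro t _; simp
    | succ k ih =>
      intro t ht
      rw [show t + per r * (k + 1) = (t + per r * k) + per r by ring, h.2.1 _ (by omega), ih t ht]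
  have aux : ∀ t t' : ℕ, r ≤ t → t ≤ t' → t ≡ t' [MOD per r] → ext m n r s t = ext m n r s t' := by
    intro t t' ht htt h
    obtain ⟨k, hk⟩ := (Nat.modEq_iff_dvd' htt).1 h
    rw [show t' = t + per r * k by omega, hper2 k t ht]
  have hcong : ∀ t t' : ℕ, r ≤ t → r ≤ t' → t ≡ t' [MOD per r] →
      ext m n r s t = ext m n r s t' := by
    intro t t' ht ht' h
    rcases le_total t t' with h1 | h1
    · exact aux t t' ht h1 h
    · exact (aux t' t ht' h1 h.symm).symm
  unfold extZ
  refine hcong _ _ ht ?_ ?_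
  · have : r ≤ per r * r := Nat.le_mul_of_pos_left r (per_pos r)
    omega
  · rw [ZMod.val_natCast]
    unfold Nat.ModEq
    simp

end Pool.Agent.K1H68.CP
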